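import Pool.Agent.helper62.QU.CA1

/-!
# Row qu:FI2 (MP_07c750_an): covers
-/

set_option autoImplicit false

open scoped MatrixGroups ContDiff Topology UpperHalfPlane
open UpperHalfPlane MeasureTheory Filter Set

namespace Pool.Agent.QU

/-- a continuous linear map commutes with the Laplace operator -/
theorem FI2_lap {E E' : Type} [NormedAddCommGroup E] [NormedSpace ℝ E] [NormedAddCommGroup E']
    [NormedSpace ℝ E'] (L : E →L[ℝ] E') (φ : ℍ → E) (h : CD 2 φ) (z : ℍ) :
    lap (fun z => L (φ z)) z = L (lap φ z) := by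
  unfold lap
  have h3 : onC (fun z => L (φ z)) = fun w => L (onC φ w) := rfl
  rw [h3]
  have hU : ∀ w ∈ CA1_U, DifferentiableAt ℝ (onC φ) w := fun w hw =>
    (ContDiffOn.contDiffAt h (CA1_open.mem_nhds hw)).differentiableAt (by norm_num)
  have h4 : (fderiv ℝ (fun w => L (onC φ w))) =ᶠ[𝓝 (z : ℂ)]
      fun w => L.comp (fderiv ℝ (onC φ) w) := by
    filter_upwards [CA1_open.mem_nhds (CA1_mem z)] with w hw
    exact (L.hasFDerivAt.comp w (hU w hw).hasFDerivAt).fderiv
  rw [h4.fderiv_eq]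
  have h5 : DifferentiableAt ℝ (fderiv ℝ (onC φ)) (z : ℂ) := by
    have h1 : ContDiffOn ℝ 1 (fderiv ℝ (onC φ)) CA1_U := by
      have h' : CD (1 + 1) φ := h.of_le (by norm_num)
      exact ((contDiffOn_succ_iff_fderiv_of_isOpen CA1_open).1 h').2.2
    exact (h1.contDiffAt (CA1_open.mem_nhds (CA1_mem z))).differentiableAt (by norm_num)
  have h6 : HasFDerivAt (fun w => L.comp (fderiv ℝ (onC φ) w))
      ((ContinuousLinearMap.compL ℝ ℂ E E' L).comp (fderiv ℝ (fderiv ℝ (onC φ)) (z : ℂ))) (z : ℂ) :=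
    (ContinuousLinearMap.compL ℝ ℂ E E' L).hasFDerivAt.comp (z : ℂ) h5.hasFDerivAt
  rw [h6.fderiv]
  simp only [ContinuousLinearMap.comp_apply, ContinuousLinearMap.compL_apply, map_smul, map_add]

/-- vectors of sum zero -/
def FI2_S (N : ℕ) : Submodule ℂ (EuclideanSpace ℂ (Fin N)) where
  carrier := {v | ∑ i, v i = 0}
  add_mem' := by
    intro a b ha hb
    simp only [Set.mem_ofPred_eq, PiLp.add_apply, Finset.sum_add_distrib] at *
    rw [ha, hb, add_zero]
  zero_mem' := by simp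
  smul_mem' := by
    intro c a ha
    simp only [Set.mem_ofPred_eq, PiLp.smul_apply, ← Finset.smul_sum] at *
    rw [ha, smul_zero]

theorem FI2_perm {Γ : Type} [Group Γ] {N : ℕ} (σ : Γ →* Equiv.Perm (Fin N)) (γ : Γ)
    (v : EuclideanSpace ℂ (Fin N)) (i : Fin N) : permRep σ γ v (σ γ i) = v i := by
  show v ((σ γ).symm (σ γ i)) = v i
  rw [Equiv.symm_apply_apply]

theorem FI2_mem {Γ : Type} [Group Γ] {N : ℕ} (σ : Γ →* Equiv.Perm (Fin N)) (γ : Γ)
    {v : EuclideanSpace ℂ (Fin N)} (hv : v ∈ FI2_S N) : permRep σ γ v ∈ FI2_S N := by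
  show ∑ i, permRep σ γ v i = 0
  rw [← Equiv.sum_comp (σ γ)]
  simp only [FI2_perm]
  exact hv

/-- the restriction of the permutation representation -/
noncomputable def FI2_rho {Γ : Type} [Group Γ] {N : ℕ} (σ : Γ →* Equiv.Perm (Fin N)) :
    Γ →* (FI2_S N ≃ₗᵢ[ℂ] FI2_S N) where
  toFun γ :=
    { toFun := fun v => ⟨permRep σ γ v.1, FI2_mem σ γ v.2⟩
      invFun := fun v => ⟨permRep σ γ⁻¹ v.1, FI2_mem σ γ⁻¹ v.2⟩
      map_add' := fun u v => Subtype.ext (map_add (permRep σ γ) u.1 v.1)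
      map_smul' := fun c v => Subtype.ext (map_smul (permRep σ γ) c v.1)
      left_inv := fun v => Subtype.ext (by
        show (permRep σ γ⁻¹ * permRep σ γ) v.1 = v.1
        rw [← map_mul, inv_mul_cancel, map_one]
        rfl)
      right_inv := fun v => Subtype.ext (by
        show (permRep σ γ * permRep σ γ⁻¹) v.1 = v.1
        rw [← map_mul, mul_inv_cancel, map_one]
        rfl)
      norm_map' := fun v => (permRep σ γ).norm_map v.1 }
  map_one' := by
    refine LinearIsometryEquiv.ext fun v => Subtype.ext ?_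
    show permRep σ 1 v.1 = v.1
    rw [map_one]
    rfl
  map_mul' γ δ := by
    refine LinearIsometryEquiv.ext fun v => Subtype.ext ?_
    show permRep σ (γ * δ) v.1 = permRep σ γ (permRep σ δ v.1)
    rw [map_mul]
    rfl

theorem FI2_rep {Γ : Type} [Group Γ] {N : ℕ} (σ : Γ →* Equiv.Perm (Fin N)) (a : MonoidAlgebra ℂ Γ)
    (v : FI2_S N) : ((rep (FI2_rho σ) a v : FI2_S N) : EuclideanSpace ℂ (Fin N)) =
      rep (permRep σ) a v.1 := by
  unfold rep
  rw [sum_apply, sum_apply, AddSubmonoidClass.coe_finsetSum]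
  rfl

theorem FI2_nonneg {Γ : Type} [Group Γ] (a : MonoidAlgebra ℂ Γ) : 0 ≤ regNorm a :=
  Real.sInf_nonneg fun _ hc => hc.1

theorem FI2 (h1 : FI1_stmt) : FI2_stmt := by
  intro Γ hΓ N σ hσ F h hF hh hinv b ε hε
  have hmain := h1 Γ hΓ (fun n => FI2_S (N n)) (fun n => FI2_rho (σ n)) (by
    intro a δ hδ
    filter_upwards [hσ a δ hδ] with n hn
    refine ContinuousLinearMap.opNorm_le_bound _ (add_nonneg (FI2_nonneg a) hδ.le) fun v => ?_
    have h2 := hn v.1 v.2
    rw [← FI2_rep] at h2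
    exact h2) F h hF hh hinv b ε hε
  filter_upwards [hmain] with n hn
  intro μ φ hμ0 hμb hCD heq hsum hlap
  let ψ : ℍ → FI2_S (N n) := fun z => ⟨WithLp.toLp 2 (φ z), hsum z⟩
  have hψi : ∀ z i, (ψ z : EuclideanSpace ℂ (Fin (N n))) i = φ z i := fun z i => rfl
  have hcd : CD ∞ ψ := by
    have e1 : CD ∞ (fun z => (ψ z : EuclideanSpace ℂ (Fin (N n)))) := by
      unfold CD
      rw [contDiffOn_piLp]
      intro i
      exact hCD i
    have e2 : ContDiffOn ℝ ∞ (fun w => ((FI2_S (N n)).orthogonalProjectionOnto.restrictScalars ℝ)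
        (onC (fun z => (ψ z : EuclideanSpace ℂ (Fin (N n)))) w)) CA1_U :=
      ContDiffOn.continuousLinearMap_comp _ e1
    refine e2.congr fun w hw => ?_
    show ψ (ofComplex w) = (FI2_S (N n)).orthogonalProjectionOnto (ψ (ofComplex w)).1
    rw [Submodule.orthogonalProjectionOnto_mem_subspace_eq_self]
  have hCD2 : CD 2 ψ := hcd.of_le (WithTop.coe_le_coe.2 (le_top : (2 : ℕ∞) ≤ ⊤))
  have key := hn μ ψ hμ0 hμb hcd (by
    intro γ z
    apply Subtype.ext
    show WithLp.toLp 2 (φ (γ • z)) = permRep (σ n) γ (WithLp.toLp 2 (φ z))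
    ext j
    obtain ⟨i, rfl⟩ := (σ n γ).surjective j
    rw [FI2_perm]
    exact heq γ z i) (by
    intro z
    apply Subtype.ext
    ext i
    have h2 := FI2_lap (((EuclideanSpace.proj i : EuclideanSpace ℂ (Fin (N n)) →L[ℂ] ℂ).comp
      (FI2_S (N n)).subtypeL).restrictScalars ℝ) ψ hCD2 z
    have h3 : ((lap ψ z : FI2_S (N n)) : EuclideanSpace ℂ (Fin (N n))) i = lap (fun z => φ z i) z := h2.symm
    rw [h3, hlap i z]
    rfl)
  have hnorm : ∀ z, ‖ψ z‖ ^ 2 = ∑ i, ‖φ z i‖ ^ 2 := by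
    intro z
    show ‖(ψ z : EuclideanSpace ℂ (Fin (N n)))‖ ^ 2 = _
    rw [EuclideanSpace.norm_sq_eq]
  simp only [hnorm] at key
  exact key

end Pool.Agent.QU
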